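import Pool.Agent.H857N.NA6

/-!
# Almost hyperinvariant flags for tuples that are jointly quasinilpotent in measure

Let `M` be a von Neumann algebra on a Hilbert space `H` with a normal tracial state `τ` (a finite von Neumann
algebra; the state need not be faithful), and let `T_1, …, T_k ∈ M`. The tuple is called *jointly quasinilpotent
in measure* if for all `r, ε > 0` there are `n ≥ 1` and a projection `p ∈ M` with `τ(p) ≥ 1 - ε` and

`∑_w ‖T_w p v‖² ≤ r^{2n} ‖v‖²` for all `v ∈ H`, `w` running over the words of length `n`.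

For `k = 1` this is the case in which the theorem of Haagerup and Schultz gives no hyperinvariant subspace (all
of the Brown measure sits at `0`); it holds in particular for quasinilpotent operators.

Theorem. For every `δ > 0` there are a finite chain of projections `0 = P_0 ≤ P_1 ≤ ⋯ ≤ P_J = 1` of `M`, operators
`N_1, …, N_k ∈ M` and `κ > 0` such that

* `N_i` maps `P_{j+1} H` into `P_j H` (so that every product of `J` of the `N_i` is `0`), and
  `τ((T_i - N_i)* (T_i - N_i)) ≤ δ²`;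
* the chain is almost invariant under EVERYTHING that almost commutes with the tuple: for every bounded operator
  `S` on `H` (in `M` or not) with `‖S T_i - T_i S‖ ≤ κ ‖S‖` for all `i`, one has `‖(1 - P_{j+1}) S P_j‖ ≤ δ ‖S‖` for
  all `j`; in particular this holds for all `S` in the commutant of the tuple.

The operators `N_i` satisfy `∑ ‖N_i v‖² ≤ C² ‖v‖²` if the `T_i` do. The chain is long and nontrivial as soon as the
`T_i` are not small: if the chain is `0, 1` then `N = 0`, so `τ(T_i* T_i) ≤ δ²`.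

Proof. `d² = ∑_{j < n} c^j ∑_{|w| = j} T_w* T_w` with a large number `c` is an operator whose quadratic form is almost
invariant under operators `S` that almost commute with the tuple: `‖d S v‖ ≤ 2 ‖S‖ ‖d v‖`. Its spectral subspaces for a
lacunary sequence of thresholds form the chain, and the tuple is moved to a tuple that is strictly triangular
with respect to the chain, with an error controlled by the trace (`Pool/Agent/H857N`, helper857 of the starting
library).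
-/

set_option autoImplicit false

open Filter Topology
open scoped ComplexOrder InnerProductSpace

namespace Pool.Agent.Results.MP_5ac32f_an.AlmostHyperinvariantFlags

variable {H : Type*} [NormedAddCommGroup H] [InnerProductSpace ℂ H] [CompleteSpace H]

/-- `τ` is a normal tracial state on the von Neumann algebra `M`. -/
structure IsNormalTrace (M : VonNeumannAlgebra H) (τ : (H →L[ℂ] H) →ₗ[ℂ] ℂ) : Prop where
  one : τ 1 = 1
  pos : ∀ x ∈ M, 0 ≤ τ (star x * x)
  trace : ∀ x ∈ M, ∀ y ∈ M, τ (x * y) = τ (y * x)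
  normal : ∀ (x : ℕ → (H →L[ℂ] H)) (y : H →L[ℂ] H), (∀ n, x n ∈ M) → (∀ n, ‖x n‖ ≤ 1) → y ∈ M →
    (∀ v, Tendsto (fun n => x n v) atTop (𝓝 (y v))) →
    Tendsto (fun n => τ (x n)) atTop (𝓝 (τ y))

/-- `∑_w ‖T_w v‖²`, the sum over all words `w` of length `n`. -/
noncomputable def wordSum {k : ℕ} (T : Fin k → (H →L[ℂ] H)) (n : ℕ) (v : H) : ℝ :=
  ∑ w : Fin n → Fin k, ‖(List.ofFn fun t => T (w t)).prod v‖ ^ 2

/-- The tuple is jointly quasinilpotent in measure. -/
def QuasinilpotentInMeasure {k : ℕ} (M : VonNeumannAlgebra H) (τ : (H →L[ℂ] H) →ₗ[ℂ] ℂ)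
    (T : Fin k → (H →L[ℂ] H)) : Prop :=
  ∀ r : ℝ, 0 < r → ∀ ε : ℝ, 0 < ε → ∃ n : ℕ, 1 ≤ n ∧ ∃ p ∈ M, IsStarProjection p ∧
    1 - ε ≤ (τ p).re ∧ ∀ v, wordSum T n (p v) ≤ (r ^ 2) ^ n * ‖v‖ ^ 2

/-- `0 = P_0 ≤ P_1 ≤ ⋯ ≤ P_J = 1` is a chain of projections of `M`. -/
structure IsChain (M : VonNeumannAlgebra H) (J : ℕ) (P : ℕ → (H →L[ℂ] H)) : Prop where
  zero : P 0 = 0
  top : P J = 1
  mem : ∀ j, P j ∈ M
  proj : ∀ j, IsStarProjection (P j)
  mono : ∀ j, P (j + 1) * P j = P j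

omit [CompleteSpace H] in
theorem scaled_prod {k : ℕ} (T : Fin k → (H →L[ℂ] H)) (c : ℂ) (n : ℕ) (w : Fin n → Fin k) :
    (List.ofFn fun t => (c • T (w t) : H →L[ℂ] H)).prod =
      c ^ n • (List.ofFn fun t => T (w t)).prod := by
  induction n with
  | zero => simp
  | succ n ih =>
    rw [List.ofFn_succ, List.ofFn_succ, List.prod_cons, List.prod_cons, ih, smul_mul_smul_comm,
      pow_succ']

omit [CompleteSpace H] in
theorem wordSum_smul {k : ℕ} (T : Fin k → (H →L[ℂ] H)) (c : ℂ) (n : ℕ) (v : H) :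
    wordSum (fun i => c • T i) n v = (‖c‖ ^ 2) ^ n * wordSum T n v := by
  unfold wordSum
  rw [Finset.mul_sum]
  refine Finset.sum_congr rfl fun w _ => ?_
  rw [scaled_prod]
  simp only [smul_apply, norm_smul, norm_pow, mul_pow]
  ring

theorem result (M : VonNeumannAlgebra H) (τ : (H →L[ℂ] H) →ₗ[ℂ] ℂ) (hτ : IsNormalTrace M τ)
    {k : ℕ} (T : Fin k → (H →L[ℂ] H)) (hT : ∀ i, T i ∈ M) (hq : QuasinilpotentInMeasure M τ T)
    {C : ℝ} (hC : 0 < C) (hTC : ∀ v, ∑ i, ‖T i v‖ ^ 2 ≤ C ^ 2 * ‖v‖ ^ 2) {δ : ℝ} (hδ : 0 < δ) :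
    ∃ (J : ℕ) (P : ℕ → (H →L[ℂ] H)) (N : Fin k → (H →L[ℂ] H)) (κ : ℝ),
      0 < κ ∧ IsChain M J P ∧ (∀ i, N i ∈ M) ∧
      (∀ v, ∑ i, ‖N i v‖ ^ 2 ≤ C ^ 2 * ‖v‖ ^ 2) ∧
      (∀ i j, N i * P (j + 1) = P j * N i * P (j + 1)) ∧
      (∀ w : List (Fin k), J ≤ w.length → (w.map N).prod = 0) ∧
      (∀ i, (τ (star (T i - N i) * (T i - N i))).re ≤ δ ^ 2) ∧
      ∀ S : H →L[ℂ] H, (∀ i, ‖S * T i - T i * S‖ ≤ κ * ‖S‖) →
        ∀ j, ‖(1 - P (j + 1)) * S * P j‖ ≤ δ * ‖S‖ := by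
  have hτ' : Pool.H711R2.IsNormalTrace M τ := ⟨hτ.one, hτ.pos, hτ.trace, hτ.normal⟩
  have hCc : (C : ℂ) ≠ 0 := by exact_mod_cast hC.ne'
  set T' : Fin k → (H →L[ℂ] H) := fun i => ((C : ℂ)⁻¹) • T i with hT'
  have hnC : ‖((C : ℂ)⁻¹)‖ = C⁻¹ := by
    rw [norm_inv, Complex.norm_real, Real.norm_eq_abs, abs_of_pos hC]
  have hT'M : ∀ i, T' i ∈ M := fun i => Pool.H711R2.vn_smul _ (hT i)
  have hT'c : ∀ v, ∑ i, ‖T' i v‖ ^ 2 ≤ ‖v‖ ^ 2 := by
    intro v
    have h1 : ∀ i, ‖T' i v‖ ^ 2 = (C⁻¹) ^ 2 * ‖T i v‖ ^ 2 := by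
      intro i
      rw [hT']
      simp only [smul_apply]
      rw [norm_smul, hnC, mul_pow]
    rw [Finset.sum_congr rfl fun i _ => h1 i, ← Finset.mul_sum]
    calc (C⁻¹) ^ 2 * ∑ i, ‖T i v‖ ^ 2 ≤ (C⁻¹) ^ 2 * (C ^ 2 * ‖v‖ ^ 2) := by
          have := hTC v
          gcongr
      _ = ‖v‖ ^ 2 := by
          field_simp
  have hq' : ∀ r : ℝ, 0 < r → ∀ ε : ℝ, 0 < ε → ∃ n : ℕ, 1 ≤ n ∧ ∃ p ∈ M, IsStarProjection p ∧
      1 - ε ≤ (τ p).re ∧ ∀ v, Pool.Agent.H857N.Qn T' n (p v) ≤ (r ^ 2) ^ n * ‖v‖ ^ 2 := by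
    intro r hr ε hε
    obtain ⟨n, hn, p, hp, hpp, hpt, hpw⟩ := hq (C * r) (by positivity) ε hε
    refine ⟨n, hn, p, hp, hpp, hpt, fun v => ?_⟩
    rw [← Pool.Agent.H857N.words]
    have h1 := wordSum_smul T ((C : ℂ)⁻¹) n (p v)
    have h2 : ∑ w : Fin n → Fin k, ‖(List.ofFn fun t => T' (w t)).prod (p v)‖ ^ 2 =
        (‖((C : ℂ)⁻¹)‖ ^ 2) ^ n * wordSum T n (p v) := h1
    rw [h2, hnC]
    calc ((C⁻¹) ^ 2) ^ n * wordSum T n (p v)
        ≤ ((C⁻¹) ^ 2) ^ n * (((C * r) ^ 2) ^ n * ‖v‖ ^ 2) := by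
          have := hpw v
          gcongr
      _ = (r ^ 2) ^ n * ‖v‖ ^ 2 := by
          rw [← mul_assoc, ← mul_pow, ← mul_pow]
          congr 3
          field_simp
  set δ' : ℝ := min δ (δ / C) with hδ'
  have hδ'0 : 0 < δ' := lt_min hδ (by positivity)
  obtain ⟨J, P, N, κ, hκ, h0, h1, hP, hNM, hNc, hNt, hNp, hd, hS⟩ :=
    Pool.Agent.H857N.main hτ' hT'M hT'c hq' hδ'0
  refine ⟨J, P, fun i => (C : ℂ) • N i, κ * C, by positivity,
    ⟨h0, h1, fun j => (hP j).1, fun j => (hP j).2.1, fun j => (hP j).2.2⟩,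
    fun i => Pool.H711R2.vn_smul _ (hNM i), ?_, ?_, ?_, ?_, ?_⟩
  · intro v
    have h2 : ∀ i, ‖((C : ℂ) • N i) v‖ ^ 2 = C ^ 2 * ‖N i v‖ ^ 2 := by
      intro i
      simp only [smul_apply]
      rw [norm_smul, Complex.norm_real, Real.norm_eq_abs, abs_of_pos hC, mul_pow]
    rw [Finset.sum_congr rfl fun i _ => h2 i, ← Finset.mul_sum]
    have := hNc v
    gcongr
  · intro i j
    simp only [smul_mul_assoc, mul_smul_comm]
    rw [hNt]
  · intro w hw
    have h2 : ∀ w : List (Fin k), (w.map fun i => (C : ℂ) • N i).prod =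
        (C : ℂ) ^ w.length • (w.map N).prod := by
      intro w
      induction w with
      | nil => simp
      | cons a w ih =>
        rw [List.map_cons, List.prod_cons, List.map_cons, List.prod_cons, ih, smul_mul_smul_comm,
          List.length_cons, pow_succ']
    rw [h2, hNp w hw, smul_zero]
  · intro i
    have h2 : T i - (C : ℂ) • N i = (C : ℂ) • (T' i - N i) := by
      rw [hT', smul_sub]
      simp only
      rw [smul_smul, mul_inv_cancel₀ hCc, one_smul]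
    rw [h2, star_smul, smul_mul_smul_comm, map_smul, smul_eq_mul]
    have h3 : star (C : ℂ) * (C : ℂ) = ((C ^ 2 : ℝ) : ℂ) := by
      rw [Complex.star_def, Complex.conj_ofReal]
      push_cast
      ring
    rw [h3, Complex.re_ofReal_mul]
    have h4 := hd i
    calc C ^ 2 * (τ (star (T' i - N i) * (T' i - N i))).re ≤ C ^ 2 * δ' ^ 2 := by gcongr
      _ ≤ C ^ 2 * (δ / C) ^ 2 := by
          have : δ' ≤ δ / C := min_le_right _ _
          gcongr
      _ = δ ^ 2 := by field_simp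
  · intro S hSc j
    have h2 : ∀ i, ‖S * T' i - T' i * S‖ ≤ κ * ‖S‖ := by
      intro i
      have h3 : S * T' i - T' i * S = ((C : ℂ)⁻¹) • (S * T i - T i * S) := by
        rw [hT']
        simp only [mul_smul_comm, smul_mul_assoc, smul_sub]
      rw [h3, norm_smul, hnC]
      calc C⁻¹ * ‖S * T i - T i * S‖ ≤ C⁻¹ * (κ * C * ‖S‖) := by
            have := hSc i
            gcongr
        _ = κ * ‖S‖ := by field_simp
    refine (hS S h2 j).trans ?_
    have : δ' ≤ δ := min_le_left _ _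
    gcongr

end Pool.Agent.Results.MP_5ac32f_an.AlmostHyperinvariantFlags
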