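import Pool.Agent.V11321.HN.Norm

/-!
# Hyperinvariant subspaces, infinite chains and nests for operators with a part of the spectrum on a
rectifiable curve

Let `T` be a bounded operator on a complex Banach space and let `U` be an open set.  Suppose that the
part of the spectrum in `U` lies on a rectifiable curve (the image of `[0, 1]` under a Lipschitz map;
it may cross itself, and the spectrum may be any compact subset) and that the resolvent of `T` has
growth of finite exponential order at the points of the curve in `U`, outside cones about the tangent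
lines (for instance `‖(T - z)⁻¹‖ ≤ exp (C / dist (z, curve) ^ k)`).

If the spectrum has two points and meets `U`, then `T` has a nontrivial closed hyperinvariant subspace.
If a point of `U` is an accumulation point of the spectrum, then `T` has an infinite chain of closed
hyperinvariant subspaces.  If `U` contains a half-plane `Re z > a`, there is a nest of closed
hyperinvariant subspaces which separates the real parts `> a` of the points of the spectrum.

Proof of the first part: library project `Pool.Agent.W402.HI` (cut-off functions whose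
`∂̅`-derivative is small relative to the resolvent give operators in the bicommutant with product
zero).  The nests and the chains are new (`Pool.Agent.V11321.HN`).
-/

set_option autoImplicit false

open Metric

namespace Pool.Agent.Results.MP_5ac32f_an.GrowthNearCurve

section Defs

variable {X : Type} [NormedAddCommGroup X] [NormedSpace ℂ X]

/-- `V` is a closed subspace which is invariant under every bounded operator commuting with `T` (in
particular under `T`). -/
def Hyperinvariant (T : X →L[ℂ] X) (V : Submodule ℂ X) : Prop :=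
  IsClosed (V : Set X) ∧ ∀ Q : X →L[ℂ] X, Q * T = T * Q → ∀ x ∈ V, Q x ∈ V

/-- `T` has a closed hyperinvariant subspace, neither `{0}` nor the whole space. -/
def HasHyperinvariant (T : X →L[ℂ] X) : Prop :=
  ∃ V : Submodule ℂ X, Hyperinvariant T V ∧ V ≠ ⊥ ∧ V ≠ ⊤

/-- `T` has an infinite strictly increasing or strictly decreasing sequence of closed hyperinvariant
subspaces. -/
def InfiniteChain (T : X →L[ℂ] X) : Prop :=
  ∃ V : ℕ → Submodule ℂ X, (∀ n, Hyperinvariant T (V n)) ∧ (StrictMono V ∨ StrictAnti V)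

/-- There is an increasing family `V c`, `c` real, of closed hyperinvariant subspaces of `T`, such
that, for `a < c < c'`: `V c ≠ V c'` if there is a point of the spectrum of `T` with real part between
`c` and `c'`; `V c` is not `{0}` if there is a point of the spectrum with real part `< c`, and `V c` is
not the whole space if there is a point of the spectrum with real part `> c`. -/
def NestBeyond (T : X →L[ℂ] X) (a : ℝ) : Prop := ∃ V : ℝ → Submodule ℂ X,
  (∀ c : ℝ, Hyperinvariant T (V c)) ∧ (∀ c c' : ℝ, c ≤ c' → V c ≤ V c') ∧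
  (∀ c c' : ℝ, a < c → (∃ μ ∈ spectrum ℂ T, c < μ.re ∧ μ.re < c') → V c ≠ V c') ∧
  (∀ c : ℝ, a < c → (∃ μ ∈ spectrum ℂ T, μ.re < c) → V c ≠ ⊥) ∧
  (∀ c : ℝ, a < c → (∃ μ ∈ spectrum ℂ T, c < μ.re) → V c ≠ ⊤)

/-- The line `w + ℝ d` is tangent to the set `E` at `w`: for every `θ > 0` the points of `E` near `w`
lie in the cone `|Im ((z - w) / d)| ≤ θ |Re ((z - w) / d)|` about the line. -/
def TangentAt (E : Set ℂ) (w d : ℂ) : Prop :=
  ∀ θ : ℝ, 0 < θ → ∃ r : ℝ, 0 < r ∧ ∀ z ∈ E, ‖z - w‖ < r →
    |((z - w) / d).im| ≤ θ * |((z - w) / d).re|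

/-- Growth of order `A` of `N` at `w` outside the cones about the line `w + ℝ d`: for every `θ > 0`
there are `C` and `r > 0` with `N z ≤ exp (C / |z - w| ^ A)` if `0 < |z - w| < r` and
`θ |Re ((z - w) / d)| ≤ |Im ((z - w) / d)|`. -/
def ConeGrowth (N : ℂ → ℝ) (w d : ℂ) (A : ℕ) : Prop :=
  ∀ θ : ℝ, 0 < θ → ∃ C r : ℝ, 0 < r ∧ ∀ z : ℂ, z ≠ w → ‖z - w‖ < r →
    θ * |((z - w) / d).re| ≤ |((z - w) / d).im| → N z ≤ Real.exp (C / ‖z - w‖ ^ A)

/-- The part of the spectrum of `T` in `U` lies on `E`, and for some `A` the norm of the resolvent has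
growth of order `A` at every point of `E ∩ U` outside the cones about every tangent line of `E` at
this point. -/
def ConeCondition (T : X →L[ℂ] X) (E U : Set ℂ) : Prop :=
  spectrum ℂ T ∩ U ⊆ E ∧ ∃ A : ℕ, ∀ w ∈ E ∩ U, ∀ d : ℂ, ‖d‖ = 1 → TangentAt E w d →
    ConeGrowth (fun z => ‖resolvent T z‖) w d A

/-- Every `z` in `U` off `E` is in the resolvent set of `T`, with
`‖(T - z)⁻¹‖ ≤ exp (C / dist (z, E) ^ k)`. -/
def DistanceCondition (T : X →L[ℂ] X) (E U : Set ℂ) : Prop :=
  ∃ (C : ℝ) (k : ℕ), ∀ z ∈ U, z ∉ E → z ∈ resolventSet ℂ T ∧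
    ‖resolvent T z‖ ≤ Real.exp (C / infDist z E ^ k)

end Defs

/-- Let `T` be a bounded operator on a complex Banach space `X`, `γ : ℝ → ℂ` a Lipschitz map,
`Γ = γ [0, 1]`, and `U` an open set. Suppose that one of the two conditions holds: (C) the part of the
spectrum in `U` lies on `Γ`, and for some `A` the norm of the resolvent has growth of order `A` at
every point of `Γ ∩ U` outside the cones about every tangent line of `Γ` at this point, or (D) every
`z` in `U` off `Γ` is in the resolvent set, with `‖(T - z)⁻¹‖ ≤ exp (C / dist (z, Γ) ^ k)`.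

(1) If the spectrum of `T` has at least two points and meets `U`, then `T` has a nontrivial closed
hyperinvariant subspace.

(2) If some point of `U` is an accumulation point of the spectrum of `T`, then `T` has an infinite
strictly monotone sequence of closed hyperinvariant subspaces.

(3) If `U` contains the half-plane `Re z > a`, then there is an increasing family of closed
hyperinvariant subspaces `V c`, with `V c ≠ V c'` for all `a < c < c'` between which there is the real
part of a point of the spectrum, `V c ≠ 0` if there is one below `c > a` and `V c ≠ X` if there is one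
above `c > a`. -/
theorem result (X : Type) [NormedAddCommGroup X] [NormedSpace ℂ X] [CompleteSpace X]
    (T : X →L[ℂ] X) (γ : ℝ → ℂ) (L : NNReal) (hγ : LipschitzWith L γ) (U : Set ℂ) (hU : IsOpen U)
    (hT : ConeCondition T (γ '' Set.Icc 0 1) U ∨ DistanceCondition T (γ '' Set.Icc 0 1) U) :
    ((spectrum ℂ T).Nontrivial → (spectrum ℂ T ∩ U).Nonempty → HasHyperinvariant T) ∧
    ((∃ p ∈ U, ∀ r : ℝ, 0 < r → ∃ z ∈ spectrum ℂ T, z ≠ p ∧ ‖z - p‖ < r) → InfiniteChain T) ∧
    (∀ a : ℝ, {z : ℂ | a < z.re} ⊆ U → NestBeyond T a) := by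
  have hcone : ConeCondition T (γ '' Set.Icc 0 1) U := by
    rcases hT with h | ⟨C, k, hC⟩
    · exact h
    · obtain ⟨hc, hne⟩ := Pool.Agent.W402.HI.Asm.curve_compact γ L hγ
      refine ⟨fun z hz => ?_, k, ?_⟩
      · by_contra hE
        exact hz.1 (hC z hz.2 hE).1
      · intro w hw d hd ht
        exact Pool.Agent.W402.HI.Final.hH3 (fun z => ‖resolvent T z‖) _ U C k hc hU
          (fun z hz hzE => (hC z hz hzE).2) w hw.1 hw.2 d hd ht
  obtain ⟨h1, A, hA⟩ := hcone
  refine ⟨fun hn hp => ?_, fun hacc => ?_, fun a ha => ?_⟩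
  · obtain ⟨p, hp1, hp2⟩ := hp
    obtain ⟨V, v1, v2, v3, v4⟩ := Pool.Agent.W402.HI.Final.hH2 X T γ L hγ U hU
      (fun z hz hzU => h1 ⟨hz, hzU⟩) ⟨p, hp1, hp2⟩ hn
      ⟨A, fun w hw hwU d hd ht => hA w ⟨hw, hwU⟩ d hd ht⟩
    exact ⟨V, ⟨v1, v4⟩, v2, v3⟩
  · obtain ⟨p, hpU, hp⟩ := hacc
    refine Pool.Agent.V11321.HN.chain_local T γ L hγ U hU (fun z hz hzU => h1 ⟨hz, hzU⟩) p hpU ?_
      ⟨A, fun w hw hwU d hd ht => hA w ⟨hw, hwU⟩ d hd ht⟩
    rw [Metric.nhdsWithin_basis_ball.frequently_iff]
    intro r hr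
    obtain ⟨z, hz, hzp, hzr⟩ := hp r hr
    exact ⟨z, ⟨by rw [Metric.mem_ball, dist_eq_norm]; exact hzr, hzp⟩, hz⟩
  · obtain ⟨V, v1, v2, v3, v4, v5⟩ := Pool.Agent.V11321.HN.nest T γ L hγ a
      (fun z hz hza => h1 ⟨hz, ha hza⟩) ⟨A, fun w hw hwa d hd ht => hA w ⟨hw, ha hwa⟩ d hd ht⟩
    exact ⟨V, v1, v2, fun c c' hc ⟨μ, m1, m2, m3⟩ => v3 c c' hc.le μ m1 m2 m3,
      fun c hc ⟨μ, m1, m2⟩ => v4 c hc μ m1 m2, fun c hc ⟨μ, m1, m2⟩ => v5 c hc.le μ m1 m2⟩

end Pool.Agent.Results.MP_5ac32f_an.GrowthNearCurve
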